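import Pool.Agent.H6.AK.Stmts

set_option autoImplicit false

namespace Pool.Agent.H33.AK

open Pool.Agent.H6.AK

theorem BAL_thm : BALStmt := by
  classical
  intro m r x
  induction r with
  | zero =>
    have h : (Finset.univ.filter fun y : Fin m → Bool => hammingDist x y ≤ 0) ⊆ {x} := by
      intro y hy
      have h1 := (Finset.mem_filter.1 hy).2
      have h2 : hammingDist x y = 0 := Nat.le_zero.1 h1
      rw [hammingDist_eq_zero] at h2
      simp [h2]
    have h2 := Finset.card_le_card h
    simpa using h2
  | succ r ih =>
    set B := (Finset.univ.filter fun y : Fin m → Bool => hammingDist x y ≤ r) with hB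
    let g : (Fin m → Bool) × Option (Fin m) → (Fin m → Bool) := fun p =>
      match p.2 with
      | none => p.1
      | some i => Function.update p.1 i (!(p.1 i))
    have hsub : (Finset.univ.filter fun y : Fin m → Bool => hammingDist x y ≤ r + 1) ⊆
        (B ×ˢ (Finset.univ : Finset (Option (Fin m)))).image g := by
      intro y hy
      have h1 := (Finset.mem_filter.1 hy).2
      rw [Finset.mem_image]
      by_cases h2 : hammingDist x y ≤ r
      · refine ⟨(y, none), ?_, rfl⟩
        simp [hB, h2]
      · have h3 : ∃ i, x i ≠ y i := by
          by_contra hcon
          push Not at hcon
          have : x = y := funext hcon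
          subst this
          simp at h2
        obtain ⟨i, hi⟩ := h3
        refine ⟨(Function.update y i (x i), some i), ?_, ?_⟩
        · have h4 : hammingDist x (Function.update y i (x i)) < hammingDist x y := by
            unfold hammingDist
            apply Finset.card_lt_card
            rw [Finset.ssubset_iff_of_subset]
            · refine ⟨i, ?_, ?_⟩
              · simp [hi]
              · simp
            · intro j hj
              rw [Finset.mem_filter] at hj ⊢
              refine ⟨Finset.mem_univ _, ?_⟩
              by_cases hji : j = i
              · subst hji
                exact absurd (by simp) hj.2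
              · rw [Function.update_of_ne hji] at hj
                exact hj.2
          simp only [hB, Finset.mem_product, Finset.mem_filter, Finset.mem_univ, true_and, and_true]
          omega
        · show Function.update (Function.update y i (x i)) i (!(Function.update y i (x i) i)) = y
          rw [Function.update_idem, Function.update_self]
          have h5 : (!(x i)) = y i := by
            cases hx : x i <;> cases hyy : y i <;> simp_all
          rw [h5, Function.update_eq_self]
    calc (Finset.univ.filter fun y : Fin m → Bool => hammingDist x y ≤ r + 1).card
        ≤ ((B ×ˢ (Finset.univ : Finset (Option (Fin m)))).image g).card := Finset.card_le_card hsub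
      _ ≤ (B ×ˢ (Finset.univ : Finset (Option (Fin m)))).card := Finset.card_image_le
      _ = B.card * (m + 1) := by
          rw [Finset.card_product, Finset.card_univ, Fintype.card_option, Fintype.card_fin]
      _ ≤ (m + 1) ^ r * (m + 1) := Nat.mul_le_mul_right _ ih
      _ = (m + 1) ^ (r + 1) := (pow_succ _ _).symm

end Pool.Agent.H33.AK
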