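import Pool.Agent.H6.AK.Stmts

set_option autoImplicit false

namespace Pool.Agent.H33.AK

open Pool.Agent.H6.AK

theorem DEG_thm (hBAL : BALStmt) : DEGStmt := by
  classical
  intro m N r _ hN
  refine ⟨?_, ?_, ?_⟩
  · refine ⟨SimpleGraph.Coloring.mk (fun v => if v.1 = true then (0 : Fin 2) else 1) ?_⟩
    intro v w hvw
    have h1 : v.1 ≠ w.1 := hvw.1
    rcases hv : v.1 with _ | _ <;> rcases hw : w.1 with _ | _ <;> simp_all
  · have h0 : 0 < N := by omega
    have h1 : 1 < N := by omega
    let x : Fin m → Bool := fun _ => true
    let v : Vx m N := (true, x, ⟨0, h0⟩)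
    refine le_trans ?_ ((gr m N r).degree_le_maxDegree v)
    have hsub : ({(false, x, ⟨0, h0⟩), (false, x, ⟨1, h1⟩)} : Finset (Vx m N)) ⊆
        (gr m N r).neighborFinset v := by
      intro w hw
      rw [SimpleGraph.mem_neighborFinset]
      simp only [Finset.mem_insert, Finset.mem_singleton] at hw
      rcases hw with rfl | rfl
      · exact ⟨by simp [v], by simp [v]⟩
      · exact ⟨by simp [v], by simp [v]⟩
    have hc := Finset.card_le_card hsub
    rw [Finset.card_pair (by simp), SimpleGraph.card_neighborFinset_eq_degree] at hc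
    exact hc
  · apply SimpleGraph.maxDegree_le_of_forall_degree_le
    intro v
    have hsub : (gr m N r).neighborFinset v ⊆
        ({(!v.1)} : Finset Bool) ×ˢ
          ((Finset.univ.filter fun y : Fin m → Bool => hammingDist v.2.1 y ≤ r) ×ˢ
            (Finset.univ : Finset (Fin N))) := by
      intro w hw
      rw [SimpleGraph.mem_neighborFinset] at hw
      have h1 : v.1 ≠ w.1 := hw.1
      have h2 : hammingDist v.2.1 w.2.1 ≤ r := hw.2
      simp only [Finset.mem_product, Finset.mem_singleton, Finset.mem_filter, Finset.mem_univ,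
        true_and, and_true]
      refine ⟨?_, h2⟩
      rcases hv : v.1 with _ | _ <;> rcases hw' : w.1 with _ | _ <;> simp_all
    have hc := Finset.card_le_card hsub
    rw [SimpleGraph.card_neighborFinset_eq_degree, Finset.card_product, Finset.card_product,
      Finset.card_singleton, one_mul, Finset.card_univ, Fintype.card_fin] at hc
    exact hc.trans (Nat.mul_le_mul_right _ (hBAL m r v.2.1))

end Pool.Agent.H33.AK
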